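import Pool.Agent.R666.Sul.PieceF

/-!
# Sulanke's conjecture: the statistic `st₁` on `SYT(n³)` has a `3`-Narayana distribution

Rows `1,2,3` are `0,1,2 : Fin 3`, entries `1,…,3n` are `0,…,3n-1 : Fin (3n)`.
-/

set_option autoImplicit false
open Finset

namespace Pool.Agent.Results.MP_6dddfa_co.Sulanke

/-- Standard Young tableaux of shape `n³` (three rows, `n` columns): the bijective fillings of the
cells `(r, c)`, `r : Fin 3`, `c : Fin n`, by the elements of `Fin (3n)`, increasing along every row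
and down every column. -/
def SYT (n : ℕ) : Type :=
  {e : Fin 3 × Fin n ≃ Fin (3 * n) //
    (∀ r, StrictMono fun c => e (r, c)) ∧ ∀ c, StrictMono fun r => e (r, c)}

/-- `R_T(i)`: the index of the row of `T` that contains `i`. -/
def R {n : ℕ} (T : SYT n) (i : Fin (3 * n)) : Fin 3 := (T.1.symm i).1

/-- `b_{r,s}(T)`: the number of pairs of consecutive entries `i, i+1` with `R_T(i) = r` and
`R_T(i+1) = s`. -/
noncomputable def b {n : ℕ} (T : SYT n) (r s : Fin 3) : ℕ :=
  Nat.card {p : Fin (3 * n) × Fin (3 * n) // p.1.val + 1 = p.2.val ∧ R T p.1 = r ∧ R T p.2 = s}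

/-- `asc(T)`: the number of pairs of consecutive entries `i, i+1` with `R_T(i) > R_T(i+1)`. -/
noncomputable def asc {n : ℕ} (T : SYT n) : ℕ :=
  Nat.card {p : Fin (3 * n) × Fin (3 * n) // p.1.val + 1 = p.2.val ∧ R T p.2 < R T p.1}

/-- `st₁(T) = b_{1,2}(T) + b_{2,2}(T) + b_{2,3}(T) - 2`. -/
noncomputable def st1 {n : ℕ} (T : SYT n) : ℤ :=
  (b T 0 1 : ℤ) + (b T 1 1 : ℤ) + (b T 1 2 : ℤ) - 2

instance (n : ℕ) : Finite (Sul.SYT n) := by
  unfold Sul.SYT; infer_instance

/-- Number of tableaux with a given value of a statistic, as a coefficient. -/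
theorem coeff_card {n : ℕ} [Fintype (Sul.SYT n)] (s : Sul.SYT n → ℕ) (k : ℕ) :
    (∑ T : Sul.SYT n, (Polynomial.X : Polynomial ℚ) ^ s T).coeff k =
      (Nat.card {T : Sul.SYT n // s T = k} : ℚ) := by
  classical
  rw [Polynomial.finsetSum_coeff]
  simp only [Polynomial.coeff_X_pow]
  rw [Finset.sum_boole, Nat.card_eq_fintype_card, Fintype.card_subtype]
  congr 2
  ext T
  simp [eq_comm]

theorem card_eq (n : ℕ) (hn : 1 ≤ n) (k : ℕ) :
    Nat.card {T : Sul.SYT n // Sul.stat Sul.Est T = k} =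
      Nat.card {T : Sul.SYT n // Sul.stat Sul.Easc T + 2 = k} := by
  have : Fintype (Sul.SYT n) := Fintype.ofFinite _
  have h := Sul.gf_eq' n hn
  have h1 := coeff_card (n := n) (fun T => Sul.stat Sul.Est T) k
  have h2 := coeff_card (n := n) (fun T => Sul.stat Sul.Easc T + 2) k
  rw [h] at h1
  rw [h1] at h2
  exact_mod_cast h2

theorem stat_Est {n : ℕ} (T : SYT n) :
    Sul.stat Sul.Est (n := n) T = b T 0 1 + b T 1 1 + b T 1 2 := by
  classical
  unfold Sul.stat b
  rw [Nat.card_eq_fintype_card, Nat.card_eq_fintype_card, Nat.card_eq_fintype_card,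
    Nat.card_eq_fintype_card, Fintype.card_subtype, Fintype.card_subtype, Fintype.card_subtype,
    Fintype.card_subtype, ← Finset.card_union_of_disjoint, ← Finset.card_union_of_disjoint]
  · congr 1
    ext p
    simp only [Finset.mem_filter, Finset.mem_univ, true_and, Finset.mem_union]
    have : Sul.Est (Sul.R (n := n) T p.1) (Sul.R (n := n) T p.2) ↔
      (R T p.1 = 0 ∧ R T p.2 = 1) ∨ (R T p.1 = 1 ∧ R T p.2 = 1) ∨ (R T p.1 = 1 ∧ R T p.2 = 2) :=
      Iff.rfl
    rw [this]
    tauto
  · rw [Finset.disjoint_left]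
    intro p hp hp'
    simp only [Finset.mem_filter, Finset.mem_univ, true_and, Finset.mem_union] at hp hp'
    rcases hp with hp | hp
    · exact absurd (hp.2.1.symm.trans hp'.2.1) (by decide)
    · exact absurd (hp.2.2.symm.trans hp'.2.2) (by decide)
  · rw [Finset.disjoint_left]
    intro p hp hp'
    simp only [Finset.mem_filter, Finset.mem_univ, true_and] at hp hp'
    exact absurd (hp.2.1.symm.trans hp'.2.1) (by decide)

/-- **Sulanke's conjecture.** For every `n ≥ 1`, the statistic `st₁` on `SYT(n³)` has a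
`3`-Narayana distribution. -/
theorem result (n : ℕ) (hn : 1 ≤ n) (h : ℤ) :
    Nat.card {T : SYT n // st1 T = h} = Nat.card {T : SYT n // (asc T : ℤ) = h} := by
  have hst : ∀ T : SYT n, st1 T = (Sul.stat Sul.Est (n := n) T : ℤ) - 2 := by
    intro T
    rw [stat_Est, st1]; push_cast; ring
  have hasc : ∀ T : SYT n, asc T = Sul.stat Sul.Easc (n := n) T := fun T => rfl
  rcases lt_or_ge (h + 2) 0 with h2 | h2
  · have : IsEmpty {T : SYT n // st1 T = h} := ⟨fun T => by
      have := T.2
      rw [hst] at this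
      omega⟩
    have : IsEmpty {T : SYT n // (asc T : ℤ) = h} := ⟨fun T => by
      have := T.2
      omega⟩
    rw [Nat.card_of_isEmpty, Nat.card_of_isEmpty]
  · obtain ⟨k, hk⟩ := Int.eq_ofNat_of_zero_le h2
    have key := card_eq n hn k
    have e1 : ∀ T : SYT n, st1 T = h ↔ Sul.stat Sul.Est (n := n) T = k := by
      intro T; rw [hst]; omega
    have e2 : ∀ T : SYT n, (asc T : ℤ) = h ↔ Sul.stat Sul.Easc (n := n) T + 2 = k := by
      intro T; rw [hasc]; omega
    simp only [e1, e2]
    exact key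

end Pool.Agent.Results.MP_6dddfa_co.Sulanke
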